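import Pool.Agent.Helper17.CP.Local

/-!
# The closing probability of the self-avoiding walk on `ℤ³`
-/

set_option autoImplicit false

namespace Pool.Agent.Results.MP_794e6e_pr.ClosingProbability

open Filter Topology

/-- `ω` is an `n`-step self-avoiding nearest-neighbour walk on `ℤ³` from `0` -/
def IsSAW (n : ℕ) (ω : Fin (n + 1) → Fin 3 → ℤ) : Prop :=
  ω 0 = 0 ∧ (∀ i : Fin n, ∑ j, |ω i.succ j - ω i.castSucc j| = 1) ∧ Function.Injective ω

/-- the number `c_n` of `n`-step self-avoiding walks from `0` -/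
noncomputable def c (n : ℕ) : ℕ := {ω | IsSAW n ω}.ncard

/-- the number of `n`-step self-avoiding walks from `0` which end at a neighbour of `0`. The
closing probability is `cl n / c n`; for `n ≥ 4` the number `cl (n - 1)` is `2 n` times the number
of self-avoiding polygons with `n` edges up to translation. -/
noncomputable def cl (n : ℕ) : ℕ := {ω | IsSAW n ω ∧ ∑ j, |ω (Fin.last n) j| = 1}.ncard

/-- **Theorem.** On `ℤ³` the limit `μ` of `c_n^(1/n)` exists and is positive, and, with `cl n` the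
number of `n`-step self-avoiding walks from `0` that end next to `0`:

(1) for all `0 < z ≤ 1/μ` and `M ≥ 2`,
`∑_{M < n ≤ 2M} cl (n-1) z^n ≤ 200 (log M / M) ∑_{n ≤ 3M} c_n z^n`;

(2) for all `0 < z < 1/μ` and `N ≥ 2`,
`∑_{n > N} cl (n-1) z^n ≤ 800 (log N / N) ∑_n c_n z^n`, where the series `∑_n c_n z^n` converges;

(3) for every `N ≥ 10^9` there is an odd `n` with `N / (176 log N) ≤ n ≤ N` for which the closing
probability `cl n / c_n` is at most `52800 (log N)² / N`;

(4) there is `K` such that the closing probability `cl n / c_n` is at most `K log n / n` for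
infinitely many odd `n`;

(5) for every `ε > 0` there is `C` such that for all `N ≥ 10^9`, `s ≥ 1` and `A ≥ 2s` with
`A + 50 s log N ≤ N` there is an odd `n` with `A ≤ n ≤ A + 50 s log N` for which the closing
probability `cl n / c_n` is at most `C (s^(1/3+ε) + log N) / s`. -/
theorem result : ∃ μ : ℝ, 0 < μ ∧
    Tendsto (fun n : ℕ => (c n : ℝ) ^ (1 / (n : ℝ))) atTop (𝓝 μ) ∧
    (∀ z : ℝ, 0 < z → z ≤ 1 / μ → ∀ M : ℕ, 2 ≤ M →
      ∑ n ∈ Finset.Ioc M (2 * M), (cl (n - 1) : ℝ) * z ^ n ≤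
        200 * (Real.log M / M) * ∑ n ∈ Finset.range (3 * M + 1), (c n : ℝ) * z ^ n) ∧
    (∀ z : ℝ, 0 < z → z < 1 / μ → Summable (fun n => (c n : ℝ) * z ^ n) ∧
      ∀ N : ℕ, 2 ≤ N → Summable (fun n : ℕ => if N < n then (cl (n - 1) : ℝ) * z ^ n else 0) ∧
        ∑' n : ℕ, (if N < n then (cl (n - 1) : ℝ) * z ^ n else 0) ≤
          800 * (Real.log N / N) * ∑' n, (c n : ℝ) * z ^ n) ∧
    (∀ N : ℕ, 10 ^ 9 ≤ N → ∃ n : ℕ, (N : ℝ) / (176 * Real.log N) ≤ n ∧ n ≤ N ∧ Odd n ∧
      (cl n : ℝ) / (c n : ℝ) ≤ 52800 * Real.log N ^ 2 / N) ∧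
    (∃ K : ℝ, ∀ N : ℕ, ∃ n : ℕ, N ≤ n ∧ Odd n ∧
      (cl n : ℝ) / (c n : ℝ) ≤ K * (Real.log n / n)) ∧
    ∀ ε : ℝ, 0 < ε → ∃ C : ℝ, 0 < C ∧ ∀ N s A : ℕ, 10 ^ 9 ≤ N → 1 ≤ s → 2 * s ≤ A →
      (A : ℝ) + 50 * s * Real.log N ≤ N → ∃ n : ℕ, A ≤ n ∧
        (n : ℝ) ≤ A + 50 * s * Real.log N ∧ Odd n ∧
        (cl n : ℝ) / (c n : ℝ) ≤ C * (((s : ℝ) ^ (1 / 3 + ε) + Real.log N) / s) := by
  have hc : ∀ n, Pool.Agent.Helper17.CP.cS Pool.Agent.H46R2.K3.vec n = (c n : ℝ) := by
    intro n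
    rw [Pool.Agent.Helper17.CP.cS_eq]
    exact_mod_cast (TH966.KO.ncard_eq n).symm
  have hcl : ∀ n, Pool.Agent.Helper17.CP.LS Pool.Agent.H46R2.K3.vec (n + 1) = (cl n : ℝ) :=
    fun n => (Pool.Agent.Helper17.CP.close_eq n).symm
  have hcl' : ∀ n, 1 ≤ n → Pool.Agent.Helper17.CP.LS Pool.Agent.H46R2.K3.vec n =
      (cl (n - 1) : ℝ) := by
    intro n hn
    rw [← hcl, Nat.sub_add_cancel hn]
  have hc0 : ∀ n, (0 : ℝ) < c n := fun n => by
    rw [← hc]; exact Pool.Agent.Helper17.CP.cS_pos n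
  refine ⟨Pool.Agent.Helper17.CP.μ, Pool.Agent.Helper17.CP.mu_pos, ?_, ?_, ?_, ?_, ?_, ?_⟩
  · have h := TH966.KO.tend
    have e : (fun n : ℕ => (c n : ℝ) ^ (1 / (n : ℝ))) =
        fun n : ℕ => (TH966.KO.c n : ℝ) ^ (1 / (n : ℝ)) := by
      funext n
      rw [show c n = TH966.KO.c n from TH966.KO.ncard_eq n]
    rw [e]
    exact h
  · intro z hz hz1 M hM
    have h := Pool.Agent.Helper17.CP.windows hz hz1 hM
    have e1 : ∑ n ∈ Finset.Ioc M (2 * M), (cl (n - 1) : ℝ) * z ^ n =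
        ∑ n ∈ Finset.Ioc M (2 * M),
          Pool.Agent.Helper17.CP.LS Pool.Agent.H46R2.K3.vec n * z ^ n := by
      refine Finset.sum_congr rfl fun n hn => ?_
      rw [hcl' n (by have := (Finset.mem_Ioc.1 hn).1; omega)]
    rw [e1]
    simp only [hc] at h
    exact h
  · intro z hz hz1
    have hS := Pool.Agent.Helper17.CP.summable_c hz hz1
    have hS' : Summable (fun n => (c n : ℝ) * z ^ n) := by simpa only [hc] using hS
    refine ⟨hS', fun N hN => ⟨?_, ?_⟩⟩
    · have h6 : Summable (fun n : ℕ => 6 * z * ((c (n - 1) : ℝ) * z ^ (n - 1))) := by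
        have h7 : Summable (fun n : ℕ => (c (n - 1) : ℝ) * z ^ (n - 1)) := by
          rw [← summable_nat_add_iff 1]
          simpa using hS'
        exact h7.mul_left _
      refine Summable.of_nonneg_of_le (fun n => ?_) (fun n => ?_) h6
      · split_ifs
        · positivity
        · exact le_rfl
      · split_ifs with h
        · have h8 : cl (n - 1) ≤ c (n - 1) := by
            have hfin : {ω | TH966.KO.IsSAW (n - 1) ω}.Finite := by
              rw [← (Pool.Agent.Helper17.CP.bij (n - 1)).image_eq]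
              refine Set.Finite.image _ ?_
              refine Set.Finite.subset
                (Finset.finite_toSet (Pool.Agent.H46R2.K3.W (n - 1))) fun w hw => ?_
              rw [Finset.mem_coe, Pool.Agent.H46R2.K3.P.mem_W]
              exact hw.1
            exact Set.ncard_le_ncard (fun ω hω => hω.1) hfin
          have h9 : z ^ n = z * z ^ (n - 1) := by
            rw [← pow_succ', show n - 1 + 1 = n by omega]
          have h10 : (cl (n - 1) : ℝ) ≤ c (n - 1) := by exact_mod_cast h8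
          rw [h9]
          have h11 : (0 : ℝ) ≤ z * z ^ (n - 1) := by positivity
          calc (cl (n - 1) : ℝ) * (z * z ^ (n - 1)) ≤ c (n - 1) * (z * z ^ (n - 1)) :=
                mul_le_mul_of_nonneg_right h10 h11
            _ ≤ 6 * (c (n - 1) * (z * z ^ (n - 1))) := by
                have : (0 : ℝ) ≤ c (n - 1) * (z * z ^ (n - 1)) := by positivity
                linarith
            _ = _ := by ring
        · positivity
    · have h := Pool.Agent.Helper17.CP.series hz hz1 hN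
      have e1 : (fun n : ℕ => if N < n then (cl (n - 1) : ℝ) * z ^ n else 0) =
          fun n : ℕ => if N < n then
            Pool.Agent.Helper17.CP.LS Pool.Agent.H46R2.K3.vec n * z ^ n else 0 := by
        funext n
        split_ifs with h1
        · rw [hcl' n (by omega)]
        · rfl
      rw [e1]
      simp only [hc] at h
      exact h
  · intro N hN
    obtain ⟨n, h1, h2, h3, h4⟩ := Pool.Agent.Helper17.CP.every_scale hN
    refine ⟨n, h1, h2, h3, ?_⟩
    rw [div_le_iff₀ (hc0 n), ← hcl, ← hc]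
    exact h4
  · obtain ⟨K, hK⟩ := Pool.Agent.Helper17.CP.infinitely_many
    refine ⟨K, fun N => ?_⟩
    obtain ⟨n, h1, h2, h3⟩ := hK N
    refine ⟨n, h1, h2, ?_⟩
    rw [div_le_iff₀ (hc0 n), ← hcl, ← hc]
    exact h3
  · intro ε hε
    obtain ⟨C, hC, h⟩ := Pool.Agent.Helper17.CP.every_interval hε
    refine ⟨C, hC, fun N s A h1 h2 h3 h4 => ?_⟩
    obtain ⟨n, h5, h6, h7, h8⟩ := h N s A h1 h2 h3 h4
    refine ⟨n, h5, h6, h7, ?_⟩
    rw [div_le_iff₀ (hc0 n), ← hcl, ← hc]
    exact h8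

end Pool.Agent.Results.MP_794e6e_pr.ClosingProbability
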