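import Pool.Agent.Helper17.SW.Uni

/-!
# Self-avoiding walks on `ℤ³` with a fixed end point, and self-avoiding polygons
-/

set_option autoImplicit false

namespace Pool.Agent.Results.MP_794e6e_pr.FixedEndPoints

open Filter Topology

/-- `ω` is an `n`-step self-avoiding nearest-neighbour walk on `ℤ³` from `0` -/
def IsSAW (n : ℕ) (ω : Fin (n + 1) → Fin 3 → ℤ) : Prop :=
  ω 0 = 0 ∧ (∀ i : Fin n, ∑ j, |ω i.succ j - ω i.castSucc j| = 1) ∧ Function.Injective ω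

/-- the number `c_n` of `n`-step self-avoiding walks from `0` -/
noncomputable def c (n : ℕ) : ℕ := {ω | IsSAW n ω}.ncard

/-- the number `c_n(x)` of `n`-step self-avoiding walks from `0` to `x`. If `x` is a unit vector
this is the number of self-avoiding polygons with `n + 1` edges through a given directed edge. -/
noncomputable def cx (n : ℕ) (x : Fin 3 → ℤ) : ℕ := {ω | IsSAW n ω ∧ ω (Fin.last n) = x}.ncard

/-- the number of these walks all of whose vertices are in `D` -/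
noncomputable def cxD (n : ℕ) (x : Fin 3 → ℤ) (D : Set (Fin 3 → ℤ)) : ℕ :=
  {ω | IsSAW n ω ∧ ω (Fin.last n) = x ∧ ∀ i, ω i ∈ D}.ncard

/-- the `ℓ¹` norm `|x|` -/
def l1 (x : Fin 3 → ℤ) : ℕ := ∑ j, (x j).natAbs

/-- the lengths `n ≥ |x| + 6` of the parity of `|x|` (for other parities there are no walks) -/
def Adm (x : Fin 3 → ℤ) (n : ℕ) : Prop := l1 x + 6 ≤ n ∧ 2 ∣ n - l1 x

/-- the difference of order `r`, with step `2`, of the sequence `u`, at `n` -/
noncomputable def diff (r : ℕ) (u : ℕ → ℝ) (n : ℕ) : ℝ :=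
  ∑ i ∈ Finset.range (r + 1), (-1 : ℝ) ^ i * (r.choose i : ℝ) * u (n + 2 * i)

/-- `exp (K (log log n)^2)` -/
noncomputable def ee (K : ℝ) (n : ℕ) : ℝ := Real.exp (K * Real.log (Real.log n) ^ 2)

/-- **Theorem.** On `ℤ³` the limit `μ` of `c_n^(1/n)` exists and is positive, and there is `K` with:

(1) `μ^(n-|x|) exp(-K n^(1/3) exp(K (log log n)²)) ≤ c_n(x) ≤ μ^n exp(K n^(1/3) exp(K (log log n)²))`
for all `x ≠ 0` and all `n ≥ |x| + 6` of the parity of `|x|`;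

(2) for all `x ≠ 0` and `r ≥ 1` there is `C` such that for all `n ≥ |x| + 6` of the parity of `|x|`
the differences of order `r`, with step `2`, at `n`, of `log (c_m(x) / μ^m)` and of
`log (c_m(x) / c_m)`, the logarithm of the probability that the uniform `m`-step self-avoiding walk
ends at `x`, are at most `C (n^(-1/3) exp(K (log log n)²))^r` in absolute value;

(3) for `0 < ε < 2/3` there are `C`, `0 < δ ≤ 1/2` and `N` such that for all `n ≥ N` and all `x ≠ 0` with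
`|x| ≤ δ n` and the parity of `n`, with `s = √((|x| + n^(1/3+ε)) / n)`:
`c_(n+2)(x)² ≤ c_n(x) c_(n+4)(x) (1 + C/n)`, `|c_(n+2)(x) / (μ² c_n(x)) - 1| ≤ C s`, and for every
set `D` of vertices the probabilities that the uniform self-avoiding walks from `0` to `x` with `n`
and with `n + 2` steps stay in `D` differ by at most `C s`. -/
theorem result : ∃ μ : ℝ, 0 < μ ∧
    Tendsto (fun n : ℕ => (c n : ℝ) ^ (1 / (n : ℝ))) atTop (𝓝 μ) ∧
    (∃ K : ℝ,
      (∀ x : Fin 3 → ℤ, x ≠ 0 → ∀ n : ℕ, Adm x n →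
        μ ^ (n - l1 x) * Real.exp (-(K * (n : ℝ) ^ (1 / 3 : ℝ) * ee K n)) ≤ (cx n x : ℝ) ∧
        (cx n x : ℝ) ≤ μ ^ n * Real.exp (K * (n : ℝ) ^ (1 / 3 : ℝ) * ee K n)) ∧
      ∀ x : Fin 3 → ℤ, x ≠ 0 → ∀ r : ℕ, 1 ≤ r → ∃ C : ℝ, ∀ n : ℕ, Adm x n →
        |diff r (fun m => Real.log ((cx m x : ℝ) / μ ^ m)) n| ≤
          C * ((n : ℝ) ^ (-(1 / 3) : ℝ) * ee K n) ^ r ∧
        |diff r (fun m => Real.log ((cx m x : ℝ) / (c m : ℝ))) n| ≤
          C * ((n : ℝ) ^ (-(1 / 3) : ℝ) * ee K n) ^ r) ∧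
    ∀ ε : ℝ, 0 < ε → ε < 2 / 3 → ∃ (C δ : ℝ) (N : ℕ), 0 < C ∧ 0 < δ ∧ δ ≤ 1 / 2 ∧
      ∀ n : ℕ, N ≤ n → ∀ x : Fin 3 → ℤ, x ≠ 0 → 2 ∣ n - l1 x → (l1 x : ℝ) ≤ δ * n →
        (cx (n + 2) x : ℝ) ^ 2 ≤ (cx n x : ℝ) * (cx (n + 4) x : ℝ) * (1 + C / n) ∧
        |(cx (n + 2) x : ℝ) / (μ ^ 2 * (cx n x : ℝ)) - 1| ≤
          C * √(((l1 x : ℝ) + (n : ℝ) ^ (1 / 3 + ε)) / n) ∧
        ∀ D : Set (Fin 3 → ℤ), |(cxD (n + 2) x D : ℝ) / (cx (n + 2) x : ℝ) -
            (cxD n x D : ℝ) / (cx n x : ℝ)| ≤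
          C * √(((l1 x : ℝ) + (n : ℝ) ^ (1 / 3 + ε)) / n) := by
  obtain ⟨K, K₁, hK, hK₁, h1, h2, h3, h4⟩ := Pool.Agent.Helper17.SW.engine
  have hc : ∀ n, c n = TH966.KO.c n := fun n => TH966.KO.ncard_eq n
  have hμ : 0 < TH966.KO.μ := by linarith [TH966.KO.mu_one]
  have hx : ∀ n x, cx n x = (Pool.Agent.Helper17.SW.Sx n x).ncard := fun n x => rfl
  have hle : ∀ n x, cx n x ≤ c n := fun n x =>
    Set.ncard_le_ncard (fun _ h => h.1) (Pool.Agent.Helper17.SW.fin_saw n)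
  obtain ⟨K', hK'⟩ : ∃ K', K' = max K (K₁ * Real.exp (8 * K)) := ⟨_, rfl⟩
  have hKK : K ≤ K' := hK' ▸ le_max_left _ _
  have hKK' : K₁ * Real.exp (8 * K) ≤ K' := hK' ▸ le_max_right _ _
  have hee : ∀ n, ee K n ≤ ee K' n := fun n => by
    unfold ee
    refine Real.exp_le_exp.2 (mul_le_mul_of_nonneg_right hKK (sq_nonneg _))
  have hpsi : ∀ n : ℕ, 3 ≤ n →
      K₁ * Pool.Agent.N929.EG.psi3 K n ≤ K' * (n : ℝ) ^ (1 / 3 : ℝ) * ee K' n := by
    intro n hn
    have e1 : Real.exp (K * Pool.Agent.N929.EG.ll n) ≤ Real.exp (8 * K) * ee K n := by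
      unfold ee
      rw [← Real.exp_add]
      refine Real.exp_le_exp.2 ?_
      have := mul_le_mul_of_nonneg_left (Pool.Agent.N929.EG.ll_le hn) hK
      linarith
    have hn0 : (0 : ℝ) ≤ (n : ℝ) ^ (1 / 3 : ℝ) := by positivity
    have he0 : 0 ≤ ee K n := (Real.exp_pos _).le
    calc K₁ * Pool.Agent.N929.EG.psi3 K n
        = K₁ * ((n : ℝ) ^ (1 / 3 : ℝ) * Real.exp (K * Pool.Agent.N929.EG.ll n)) := rfl
      _ ≤ K₁ * ((n : ℝ) ^ (1 / 3 : ℝ) * (Real.exp (8 * K) * ee K n)) := by gcongr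
      _ = (K₁ * Real.exp (8 * K)) * (n : ℝ) ^ (1 / 3 : ℝ) * ee K n := by ring
      _ ≤ K' * (n : ℝ) ^ (1 / 3 : ℝ) * ee K' n :=
          mul_le_mul (mul_le_mul_of_nonneg_right hKK' hn0) (hee n) he0
            (mul_nonneg (by linarith) hn0)
  refine ⟨TH966.KO.μ, hμ, ?_, ⟨K', ?_, ?_⟩, Pool.Agent.Helper17.SW.uni⟩
  · simp only [hc]
    exact TH966.KO.tend
  · intro x hx0 n hn
    have hn3 : 3 ≤ n := by
      have := hn.1
      omega
    refine ⟨?_, ?_⟩
    · have g := h1 x hx0 n hn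
      rw [← hx] at g
      have g2 := Real.exp_le_exp.2 (neg_le_neg (hpsi n hn3))
      have hp : 0 < TH966.KO.μ ^ (n - l1 x) := by positivity
      calc TH966.KO.μ ^ (n - l1 x) * Real.exp (-(K' * (n : ℝ) ^ (1 / 3 : ℝ) * ee K' n))
          ≤ TH966.KO.μ ^ (n - l1 x) * Real.exp (-(K₁ * Pool.Agent.N929.EG.psi3 K n)) := by
            gcongr
        _ ≤ (Real.exp (K₁ * Pool.Agent.N929.EG.psi3 K n) * (cx n x : ℝ)) *
              Real.exp (-(K₁ * Pool.Agent.N929.EG.psi3 K n)) :=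
            mul_le_mul_of_nonneg_right g (Real.exp_pos _).le
        _ = (Real.exp (K₁ * Pool.Agent.N929.EG.psi3 K n) *
              Real.exp (-(K₁ * Pool.Agent.N929.EG.psi3 K n))) * (cx n x : ℝ) := by ring
        _ = (cx n x : ℝ) := by rw [← Real.exp_add, add_neg_cancel, Real.exp_zero, one_mul]
    · have g := h2 n (by omega)
      rw [← hc] at g
      calc (cx n x : ℝ) ≤ (c n : ℝ) := by exact_mod_cast hle n x
        _ ≤ _ := g
        _ ≤ _ := mul_le_mul_of_nonneg_left (Real.exp_le_exp.2 (hpsi n hn3)) (by positivity)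
  · intro x hx0 r hr
    obtain ⟨C1, hC1, g1⟩ := h3 r hr
    obtain ⟨C2, hC2, g2⟩ := h4 x hx0 r hr
    refine ⟨C2 + C1, fun n hn => ?_⟩
    have hn3 : 3 ≤ n := by
      have := hn.1
      omega
    have hr1 : Pool.Agent.Helper17.SW.rt K n ≤ (n : ℝ) ^ (-(1 / 3) : ℝ) * ee K' n :=
      mul_le_mul_of_nonneg_left (hee n) (by positivity)
    have hr2 : Pool.Agent.Helper17.SW.rt K n ^ r ≤ ((n : ℝ) ^ (-(1 / 3) : ℝ) * ee K' n) ^ r :=
      pow_le_pow_left₀ (Pool.Agent.Helper17.SW.rt_nonneg K n) hr1 r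
    have hr3 : 0 ≤ ((n : ℝ) ^ (-(1 / 3) : ℝ) * ee K' n) ^ r :=
      le_trans (pow_nonneg (Pool.Agent.Helper17.SW.rt_nonneg K n) r) hr2
    have k1 : |diff r (fun m => Real.log ((c m : ℝ) / TH966.KO.μ ^ m)) n| ≤
        C1 * ((n : ℝ) ^ (-(1 / 3) : ℝ) * ee K' n) ^ r := by
      refine le_trans ?_ ((g1 n hn3).trans (mul_le_mul_of_nonneg_left hr2 hC1.le))
      simp only [hc]
      exact le_rfl
    have k2 : |diff r (fun m => Real.log ((cx m x : ℝ) / TH966.KO.μ ^ m)) n| ≤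
        C2 * ((n : ℝ) ^ (-(1 / 3) : ℝ) * ee K' n) ^ r :=
      (g2 n hn).trans (mul_le_mul_of_nonneg_left hr2 hC2.le)
    refine ⟨?_, ?_⟩
    · refine k2.trans ?_
      nlinarith
    · have e : diff r (fun m => Real.log ((cx m x : ℝ) / (c m : ℝ))) n =
          diff r (fun m => Real.log ((cx m x : ℝ) / TH966.KO.μ ^ m)) n -
          diff r (fun m => Real.log ((c m : ℝ) / TH966.KO.μ ^ m)) n := by
        unfold diff
        rw [← Finset.sum_sub_distrib]
        refine Finset.sum_congr rfl fun i _ => ?_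
        have p1 : 0 < (cx (n + 2 * i) x : ℝ) := by
          have g := h1 x hx0 (n + 2 * i) (Pool.Agent.Helper17.SW.adm_add hn i)
          rw [← hx] at g
          have hp : 0 < TH966.KO.μ ^ (n + 2 * i - Pool.Agent.Helper17.SW.n1 x) := by positivity
          by_contra hcon
          push Not at hcon
          have := Real.exp_pos (K₁ * Pool.Agent.N929.EG.psi3 K (n + 2 * i))
          nlinarith
        have p2 : 0 < (c (n + 2 * i) : ℝ) :=
          lt_of_lt_of_le p1 (by exact_mod_cast hle (n + 2 * i) x)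
        have p3 : 0 < TH966.KO.μ ^ (n + 2 * i) := by positivity
        beta_reduce
        rw [Real.log_div p1.ne' p2.ne', Real.log_div p1.ne' p3.ne', Real.log_div p2.ne' p3.ne']
        ring
      rw [e, add_mul]
      exact (abs_sub _ _).trans (add_le_add k2 k1)

end Pool.Agent.Results.MP_794e6e_pr.FixedEndPoints
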